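import Pool.Agent.H145.Euc.Mut
import Pool.Agent.H145.Euc.D14

/-!
There is a uniform oriented matroid of rank 4 on 14 elements that is Mandel and totally
non-Euclidean.
-/

namespace Pool.Agent.Results.MP_9f5d24_co.MandelTotallyNonEuclidean

open Pool.Agent.H145.Euc Chirotope

/-- There is a uniform oriented matroid of rank `2 + 2 = 4` on 14 elements which is Mandel and
totally non-Euclidean. -/
theorem result : ∃ M : Chirotope (Fin 14) 2, M.Uniform ∧ M.Mandel ∧ M.TotallyNonEuclidean := by
  refine ⟨tabO D14.tabN 14 128 (hLook D14.hts 2907) (by norm_num) D14.cert,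
    tabO_uniform _ _ _ _ _ _, tabO_mandel _ _ _ _ _ (by norm_num) _, ?_⟩
  intro g f hgf _ _
  have h := D14.all_pairs
  rw [List.all_eq_true] at h
  have h1 := h g.val (List.mem_range.mpr g.isLt)
  rw [List.all_eq_true] at h1
  have h2 := h1 f.val (List.mem_range.mpr f.isLt)
  have hne : (g.val == f.val) = false := by
    rw [beq_eq_false_iff_ne]
    intro h
    exact hgf (Fin.ext h)
  rw [hne, Bool.false_or, List.any_eq_true] at h2
  obtain ⟨d, hd, hdgf⟩ := h2
  rw [Bool.and_eq_true, beq_iff_eq, beq_iff_eq] at hdgf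
  have h3 := D14.cyc_ok
  rw [List.all_eq_true] at h3
  exact not_euclidean_of_cycOK D14.tabN 14 _ 1 (fun a b c d => by rw [one_mul]; rfl)
    (by decide) (tabO_uniform _ _ _ _ _ _) d (h3 d hd) g f hdgf.1 hdgf.2

end Pool.Agent.Results.MP_9f5d24_co.MandelTotallyNonEuclidean
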